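import Pool.Agent.H242R3.ES.StmtsK

/-! ES-K10b (helper251): connectivity at a vertex. -/

set_option autoImplicit false

open Finset
open scoped Classical

namespace Pool.Agent.H251R6.ES.K10b

open Pool.Agent.H242R3.ES

theorem t : TaskK10b := by
  intro hG2 hG5 hGen ι E _ _ _ _ V hvert v M hM hcl u huv hu
  obtain ⟨l, hl1, hl2⟩ := hu
  obtain ⟨h, hh1, hh2⟩ := hvert v
  have hhpos : ∀ k, k ≠ v → 0 < h (V k) := by
    intro k hk
    refine lt_of_le_of_ne (hh1 k) (fun h0 => hk ?_)
    exact (hh2 k).2 h0.symm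
  -- minimal ratio
  let W : Finset ι := Finset.univ.filter fun w => w ∈ M ∧ w ≠ v ∧ Face V {v, w}
  have hW : W.Nonempty := by
    obtain ⟨w, h1, h2, h3⟩ := hM
    exact ⟨w, Finset.mem_filter.2 ⟨Finset.mem_univ _, h1, h2, h3⟩⟩
  obtain ⟨w, hwW, hmin⟩ := Finset.exists_min_image W (fun w => l (V w) / h (V w)) hW
  obtain ⟨_, hwM, hwv, hFw⟩ := Finset.mem_filter.1 hwW
  by_cases hwu : w = u
  · rw [← hwu]
    exact hwM
  exfalso
  have hlw : 0 < l (V w) := by
    refine lt_of_le_of_ne (hl1 w) (fun h0 => ?_)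
    have h1 := (hl2 w).2 h0.symm
    rcases h1 with h1 | h1
    · exact hwv h1
    · exact hwu h1
  have hlv : l (V v) = 0 := (hl2 v).1 (by simp)
  have hlu : l (V u) = 0 := (hl2 u).1 (by simp)
  have hhv : h (V v) = 0 := (hh2 v).1 (by simp)
  have hhw := hhpos w hwv
  have hhu := hhpos u huv
  obtain ⟨c, hc⟩ : ∃ c, c = l (V w) / h (V w) := ⟨_, rfl⟩
  have hc0 : 0 < c := by rw [hc]; exact div_pos hlw hhw
  have hcw : c * h (V w) = l (V w) := by rw [hc]; exact div_mul_cancel₀ _ hhw.ne'
  let f : E →ₗ[ℝ] ℝ := l - c • h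
  have hf : ∀ x, f x = l x - c * h x := fun x => rfl
  have hfv : f (V v) = 0 := by rw [hf, hlv, hhv]; ring
  have hfw : f (V w) = 0 := by rw [hf, hcw]; ring
  have hfu : f (V u) < 0 := by
    rw [hf, hlu]
    have := mul_pos hc0 hhu
    linarith
  -- ranks
  have hVv : V v ≠ 0 := by
    intro h0
    obtain ⟨g, _, hg⟩ := hvert w
    have := (hg v).2 (by rw [h0, map_zero])
    exact hwv this.symm
  have hrk1 : rk V {v} = 1 := by
    unfold rk
    rw [Set.image_singleton]
    exact finrank_span_singleton hVv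
  have hss : ({v} : Set ι) ⊂ {v, w} := by
    refine Set.ssubset_iff_subset_ne.2 ⟨by simp, ?_⟩
    intro h0
    have : w ∈ ({v} : Set ι) := by rw [h0]; simp
    exact hwv this
  have hrk2 : rk V {v, w} = 2 := by
    have h1 := (hG2 ι E V {v} {v, w} (hvert v) hFw).2.1 hss
    have h2 : rk V {v, w} ≤ 2 := by
      unfold rk
      rw [Set.image_pair]
      have h3 := finrank_span_finset_le_card (R := ℝ) ({V v, V w} : Finset E)
      rw [Finset.coe_pair] at h3
      exact h3.trans Finset.card_le_two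
    omega
  -- first step
  have huniv : Face V Set.univ := ⟨0, fun i => by simp, fun i => by simp⟩
  have hRS : ({v, w} : Set ι) ⊂ Set.univ := by
    refine Set.ssubset_univ_iff.2 (fun h0 => ?_)
    have h1 : u ∈ ({v, w} : Set ι) := by rw [h0]; trivial
    rcases h1 with h1 | h1
    · exact huv h1
    · exact hwu h1.symm
  obtain ⟨y, a, hy, ha, hak, hVu⟩ := hG5 ι E V {v, w} Set.univ hFw huniv hRS u trivial
  have hfy : f y = 0 := by
    have h1 : Submodule.span ℝ (V '' {v, w}) ≤ LinearMap.ker f := by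
      rw [Submodule.span_le]
      rintro _ ⟨i, hi, rfl⟩
      rcases hi with hi | hi
      · rw [hi]; exact hfv
      · rw [Set.mem_singleton_iff.1 hi]; exact hfw
    exact h1 hy
  have hsum : f (V u) = ∑ k, a k * f (V k) := by
    rw [hVu, map_add, hfy, zero_add, map_sum]
    simp only [map_smul, smul_eq_mul]
  obtain ⟨k, -, hk⟩ : ∃ k ∈ Finset.univ, a k * f (V k) < 0 := by
    by_contra hcon
    push Not at hcon
    have := Finset.sum_nonneg hcon
    linarith
  have hak0 : a k ≠ 0 := by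
    intro h0
    rw [h0, zero_mul] at hk
    exact lt_irrefl _ hk
  have hfk : f (V k) < 0 := by
    by_contra hcon
    push Not at hcon
    have := mul_nonneg (ha k) hcon
    linarith
  obtain ⟨_, hkR, T, hcov, _, hkT⟩ := hak k hak0
  obtain ⟨_, hFT, hRT, hrkT⟩ := hcov
  have hvT : v ∈ T := hRT.1 (by simp)
  have hwT : w ∈ T := hRT.1 (by simp)
  -- second step
  obtain ⟨y', a', ha', hak', hVk⟩ := hGen ι E V hvert v T hFT hvT k hkT
  have hsum' : f (V k) = ∑ j, a' j * f (V j) := by
    rw [hVk, map_add, map_smul, hfv, smul_zero, zero_add, map_sum]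
    simp only [map_smul, smul_eq_mul]
  obtain ⟨j, -, hj⟩ : ∃ j ∈ Finset.univ, a' j * f (V j) < 0 := by
    by_contra hcon
    push Not at hcon
    have := Finset.sum_nonneg hcon
    linarith
  have haj0 : a' j ≠ 0 := by
    intro h0
    rw [h0, zero_mul] at hj
    exact lt_irrefl _ hj
  have hfj : f (V j) < 0 := by
    by_contra hcon
    push Not at hcon
    have := mul_nonneg (ha' j) hcon
    linarith
  obtain ⟨hjT, hjv, hFj⟩ := hak' j haj0
  have hjM : j ∈ M := hcl w j T hwM hwv hjv hFw hFj hFT (by omega) hvT hwT hjT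
  have hjW : j ∈ W := Finset.mem_filter.2 ⟨Finset.mem_univ _, hjM, hjv, hFj⟩
  have hle := hmin j hjW
  rw [← hc, le_div_iff₀ (hhpos j hjv)] at hle
  rw [hf] at hfj
  linarith

end Pool.Agent.H251R6.ES.K10b
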